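import Pool.Agent.H80.SH.Targets

/-!
# BAD: a formula which is not good contains an admissible list of length `T`
-/

set_option linter.unusedSectionVars false

namespace Pool.Agent.H33.SH

open Finset Pool.Agent.H80.SH

section
variable {X α : Type} [Fintype X] [DecidableEq X] [Fintype α] [DecidableEq α]

theorem cut_map (V : α → Finset X) {m : ℕ} (F : Fin m → α) (A : Finset X) (l : List (Fin m)) :
    cut (fun j => V (F j)) A l = cut V A (l.map F) := by
  ext x
  simp [cut]

theorem mem_dense_map (V : α → Finset X) {m : ℕ} (F : Fin m → α) (H : ℕ) (K : Finset X)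
    (j : Fin m) : j ∈ dense (fun j => V (F j)) H K ↔ F j ∈ dense V H K := by
  simp [dense]

theorem chain_drop {ι : Type} [Fintype ι] (V : ι → Finset X) (g H : ℕ) (A : Finset X) :
    ∀ (k : ℕ) (l : List ι), Chain V g H A l → Chain V g H A (l.drop k) := by
  intro k
  induction k with
  | zero => intro l h; simpa using h
  | succ k ih =>
    intro l h
    cases l with
    | nil => simpa using h
    | cons c l => simpa using ih l h.1

theorem not_mem_of_dense {ι : Type} [Fintype ι] (V : ι → Finset X) (H : ℕ) (A P : Finset X)
    (l : List ι) (c : ι) (h0 : 0 < (cut V A l ∩ P).card) (h : c ∈ dense V H (cut V A l ∩ P)) :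
    c ∉ l := by
  intro hc
  have he : (cut V A l ∩ P) ∩ V c = ∅ := by
    ext x
    simp only [cut, Finset.mem_inter, Finset.mem_filter, Finset.notMem_empty, iff_false]
    rintro ⟨⟨⟨_, h1⟩, _⟩, h2⟩
    exact h1 c hc h2
  simp only [dense, Finset.mem_filter, Finset.mem_univ, true_and] at h
  rw [he] at h
  simp at h
  rw [h] at h0
  simp at h0

theorem chain_nodup {ι : Type} [Fintype ι] (V : ι → Finset X) (g H : ℕ) (A : Finset X) :
    ∀ l : List ι, Chain V g H A l → l.Nodup := by
  intro l
  induction l with
  | nil => intro _; exact List.nodup_nil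
  | cons c l ih =>
    intro h
    obtain ⟨h1, h2, h3⟩ := h
    refine List.nodup_cons.2 ⟨?_, ih h1⟩
    have hu : cut V A l = cut V A l ∩ univ := by simp
    rw [hu] at h3
    refine not_mem_of_dense V H A univ l c ?_ h3
    rw [← hu]
    exact lt_of_lt_of_le (by positivity) h2

theorem chain_build (V : α → Finset X) (g H m R : ℕ) (F : Fin m → α) (A P : Finset X) :
    ∀ l : List (Fin m), Chain (fun j => V (F j)) g H A l → l.length ≤ R →
      l.map F ∈ build (nxt V g H A P R) l.length := by
  intro l
  induction l with
  | nil => intro _ _; simp [build]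
  | cons c l ih =>
    intro h hl
    obtain ⟨h1, h2, h3⟩ := h
    rw [List.length_cons] at hl ⊢
    rw [List.map_cons, build, Finset.mem_biUnion]
    refine ⟨l.map F, ih h1 (by omega), ?_⟩
    rw [Finset.mem_image]
    refine ⟨F c, ?_, rfl⟩
    rw [cut_map] at h2 h3
    rw [mem_dense_map] at h3
    rw [nxt, if_pos (by rw [List.length_map]; omega), if_pos h2]
    exact h3

theorem append_build (V : α → Finset X) (g H m : ℕ) (F : Fin m → α) (A P : Finset X)
    (l : List (Fin m)) (hl : Chain (fun j => V (F j)) g H A l)
    (hK : 2 ^ g ≤ (cut (fun j => V (F j)) A l ∩ P).card) :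
    ∀ l2 : List (Fin m), (∀ c ∈ l2, c ∈ dense (fun j => V (F j)) H
      (cut (fun j => V (F j)) A l ∩ P)) →
      (l2 ++ l).map F ∈ build (nxt V g H A P l.length) (l2.length + l.length) := by
  intro l2
  induction l2 with
  | nil =>
    intro _
    simpa using chain_build V g H m l.length F A P l hl le_rfl
  | cons c l2 ih =>
    intro h
    have h1 := ih (fun d hd => h d (List.mem_cons_of_mem _ hd))
    have h2 := h c List.mem_cons_self
    rw [List.length_cons, show l2.length + 1 + l.length = (l2.length + l.length) + 1 by ring,
      List.cons_append, List.map_cons, build, Finset.mem_biUnion]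
    refine ⟨(l2 ++ l).map F, h1, ?_⟩
    rw [Finset.mem_image]
    refine ⟨F c, ?_, rfl⟩
    have hd : ((l2 ++ l).map F).drop (((l2 ++ l).map F).length - l.length) = l.map F := by
      rw [List.length_map, List.length_append, List.map_append]
      have : l2.length + l.length - l.length = (l2.map F).length := by
        rw [List.length_map]; omega
      rw [this, List.drop_left]
    rw [nxt, if_neg (by rw [List.length_map, List.length_append]; omega), hd]
    rw [cut_map] at hK h2
    rw [mem_dense_map] at h2
    rw [if_pos hK]
    exact h2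

theorem univ_mem_PS (L : Finset (Finset X)) : ∀ M, (univ : Finset X) ∈ PS L M := by
  intro M
  induction M with
  | zero => simp [PS]
  | succ M ih => rw [PS]; exact Finset.mem_union_left _ ih

end

/-- BAD -/
theorem bad : T_BAD := by
  intro X α _ _ _ _ V L m g H T M F hG
  rw [Good] at hG
  push Not at hG
  obtain ⟨A, hA, l, hl, hG⟩ := hG
  by_cases hT : l.length < T
  · obtain ⟨P, hP, hK, hc⟩ := hG hT
    obtain ⟨J, hJ, hJc⟩ := Finset.exists_subset_card_eq
      (s := dense (fun j => V (F j)) H (cut (fun j => V (F j)) A l ∩ P)) (n := T - l.length)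
      (by omega)
    refine ⟨A, hA, P, hP, l.length, hT.le, J.toList ++ l, ?_, ?_⟩
    · refine List.Nodup.append (Finset.nodup_toList J) (chain_nodup _ g H A l hl) ?_
      intro c hc1 hc2
      refine not_mem_of_dense _ H A P l c (lt_of_lt_of_le (by positivity) hK)
        (hJ (Finset.mem_toList.1 hc1)) hc2
    · have h := append_build V g H m F A P l hl hK J.toList
        (fun c hc => hJ (Finset.mem_toList.1 hc))
      rw [Finset.length_toList, hJc, Nat.sub_add_cancel hT.le] at h
      exact h
  · push Not at hT
    refine ⟨A, hA, univ, univ_mem_PS L M, T, le_rfl, l.drop (l.length - T), ?_, ?_⟩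
    · exact chain_nodup _ g H A _ (chain_drop _ g H A _ l hl)
    · have h := chain_build V g H m T F A univ _ (chain_drop _ g H A (l.length - T) l hl)
        (by rw [List.length_drop]; omega)
      rw [List.length_drop, show l.length - (l.length - T) = T by omega] at h
      exact h

end Pool.Agent.H33.SH
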