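import Pool.Agent.H80.SH.Targets

/-!
# BAL: size of the balls
-/

namespace Pool.Agent.H33.SH

open Finset Pool.Agent.H80.SH

theorem sum_pow (n Q : ℕ) :
    ∑ y : Fin n → Bool, Q ^ (univ.filter (fun i => ¬ y i = true)).card = (Q + 1) ^ n := by
  have h1 : ∏ _i : Fin n, ∑ b : Bool, (if b = true then 1 else Q) = (Q + 1) ^ n := by
    rw [Finset.prod_const, Finset.card_univ, Fintype.card_fin]
    congr 1
    rw [Fintype.sum_bool]
    simp [Nat.add_comm]
  rw [← h1, Finset.prod_univ_sum, Fintype.piFinset_univ]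
  refine Finset.sum_congr rfl fun y _ => ?_
  rw [Finset.prod_ite, Finset.prod_const, Finset.prod_const, one_pow, one_mul]

theorem ball_mul (n Q R : ℕ) (hQ : 1 ≤ Q) (hR : 1 ≤ R) :
    ball n R * Q ^ (n - n / R) ≤ (Q + 1) ^ n := by
  rw [← sum_pow, ball, ← smul_eq_mul, ← Finset.sum_const]
  refine le_trans (Finset.sum_le_sum fun y hy => ?_)
    (Finset.sum_le_sum_of_subset (Finset.filter_subset _ _))
  refine Nat.pow_le_pow_right hQ ?_
  rw [Finset.mem_filter] at hy
  have h2 := Finset.card_filter_add_card_filter_not (s := (univ : Finset (Fin n)))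
    (fun i => y i = true)
  rw [Finset.card_univ, Fintype.card_fin] at h2
  have h3 : (univ.filter (fun i => y i = true)).card ≤ n / R := by
    rw [Nat.le_div_iff_mul_le (by omega), Nat.mul_comm]
    exact hy.2.le
  omega

/-- BAL -/
theorem bal : T_BAL := by
  intro E hE
  have hE' : (1 : ℝ) ≤ E := by exact_mod_cast hE
  set u : ℕ := 8 * E with hu
  have hu8 : 8 ≤ u := by omega
  refine ⟨4 * E * u, 2 * E, by nlinarith, ?_⟩
  intro n hn
  set R : ℕ := 4 * E * u with hR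
  have hR1 : 1 ≤ R := by rw [hR]; nlinarith
  have hQE : (8 : ℝ) * E ≤ (2 : ℝ) ^ u := by
    have h : u < 2 ^ u := Nat.lt_two_pow_self
    have h2 : 8 * E ≤ 2 ^ u := by omega
    exact_mod_cast h2
  have hQ0 : (0 : ℝ) < (2 : ℝ) ^ u := by positivity
  have hb := ball_mul n (2 ^ u) R Nat.one_le_two_pow hR1
  have hdiv : n / R ≤ n := Nat.div_le_self _ _
  have hb' : (ball n R : ℝ) * ((2 : ℝ) ^ u) ^ (n - n / R) ≤ ((2 : ℝ) ^ u + 1) ^ n := by
    exact_mod_cast hb
  -- ball ≤ (1 + 1/Q)^n Q^(n/R)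
  have h1 : (ball n R : ℝ) ≤ (1 + 1 / (2 : ℝ) ^ u) ^ n * ((2 : ℝ) ^ u) ^ (n / R) := by
    have hm : (ball n R : ℝ) * ((2 : ℝ) ^ u) ^ n ≤
        ((1 + 1 / (2 : ℝ) ^ u) ^ n * ((2 : ℝ) ^ u) ^ (n / R)) * ((2 : ℝ) ^ u) ^ n := by
      have e1 : ((2 : ℝ) ^ u) ^ n = ((2 : ℝ) ^ u) ^ (n - n / R) * ((2 : ℝ) ^ u) ^ (n / R) := by
        rw [← pow_add, Nat.sub_add_cancel hdiv]
      have e2 : (1 + 1 / (2 : ℝ) ^ u) ^ n * ((2 : ℝ) ^ u) ^ n = ((2 : ℝ) ^ u + 1) ^ n := by
        rw [← mul_pow]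
        congr 1
        field_simp
      calc (ball n R : ℝ) * ((2 : ℝ) ^ u) ^ n
          = ((ball n R : ℝ) * ((2 : ℝ) ^ u) ^ (n - n / R)) * ((2 : ℝ) ^ u) ^ (n / R) := by
            rw [e1]; ring
        _ ≤ ((2 : ℝ) ^ u + 1) ^ n * ((2 : ℝ) ^ u) ^ (n / R) :=
            mul_le_mul_of_nonneg_right hb' (by positivity)
        _ = _ := by rw [← e2]; ring
    exact le_of_mul_le_mul_right hm (by positivity)
  have h2 : (1 + 1 / (2 : ℝ) ^ u) ^ n ≤ (2 : ℝ) ^ ((n : ℝ) / (4 * E)) := by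
    have hx : 1 + 1 / (2 : ℝ) ^ u ≤ (2 : ℝ) ^ ((1 : ℝ) / (4 * E)) := by
      have h3 : 1 + 1 / (2 : ℝ) ^ u ≤ Real.exp (1 / (2 : ℝ) ^ u) := by
        have := Real.add_one_le_exp (1 / (2 : ℝ) ^ u)
        linarith
      refine h3.trans ?_
      rw [Real.rpow_def_of_pos (by norm_num), Real.exp_le_exp]
      have hl : (1 : ℝ) / 2 ≤ Real.log 2 := by
        have := Real.log_two_gt_d9
        linarith
      have h4 : 1 / (2 : ℝ) ^ u ≤ 1 / (8 * E) :=
        one_div_le_one_div_of_le (by positivity) hQE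
      have h5 : (1 : ℝ) / (8 * E) = 1 / 2 * (1 / (4 * E)) := by
        field_simp
        norm_num
      rw [h5] at h4
      exact h4.trans (mul_le_mul_of_nonneg_right hl (by positivity))
    calc (1 + 1 / (2 : ℝ) ^ u) ^ n ≤ ((2 : ℝ) ^ ((1 : ℝ) / (4 * E))) ^ n :=
          pow_le_pow_left₀ (by positivity) hx n
      _ = (2 : ℝ) ^ ((n : ℝ) / (4 * E)) := by
          rw [← Real.rpow_natCast, ← Real.rpow_mul (by norm_num)]
          congr 1
          ring
  have h3 : ((2 : ℝ) ^ u) ^ (n / R) ≤ (2 : ℝ) ^ ((n : ℝ) / (4 * E)) := by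
    rw [← pow_mul, ← Real.rpow_natCast]
    refine Real.rpow_le_rpow_of_exponent_le (by norm_num) ?_
    have h4 : ((n / R : ℕ) : ℝ) ≤ (n : ℝ) / R := Nat.cast_div_le
    have hR' : (R : ℝ) = 4 * E * u := by rw [hR]; push_cast; ring
    have hu0 : (0 : ℝ) < u := by
      have : 0 < u := by omega
      exact_mod_cast this
    push_cast
    calc (u : ℝ) * ((n / R : ℕ) : ℝ) ≤ u * ((n : ℝ) / R) :=
          mul_le_mul_of_nonneg_left h4 hu0.le
      _ = (n : ℝ) / (4 * E) := by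
          rw [hR']
          field_simp
  have h4 : (ball n R : ℝ) ≤ (2 : ℝ) ^ (((n / E : ℕ) : ℝ)) := by
    calc (ball n R : ℝ) ≤ (1 + 1 / (2 : ℝ) ^ u) ^ n * ((2 : ℝ) ^ u) ^ (n / R) := h1
      _ ≤ (2 : ℝ) ^ ((n : ℝ) / (4 * E)) * (2 : ℝ) ^ ((n : ℝ) / (4 * E)) :=
          mul_le_mul h2 h3 (by positivity) (by positivity)
      _ = (2 : ℝ) ^ ((n : ℝ) / (4 * E) + (n : ℝ) / (4 * E)) := by
          rw [Real.rpow_add (by norm_num)]
      _ ≤ _ := by
          refine Real.rpow_le_rpow_of_exponent_le (by norm_num) ?_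
          have h5 : (n : ℝ) / E - 1 ≤ ((n / E : ℕ) : ℝ) := by
            have h6 : n < E * (n / E + 1) := by
              have := Nat.lt_mul_div_succ n (show 0 < E by omega)
              simpa using this
            have h7 : (n : ℝ) < E * (((n / E : ℕ) : ℝ) + 1) := by exact_mod_cast h6
            have h8 : (n : ℝ) / E < ((n / E : ℕ) : ℝ) + 1 := by
              rw [div_lt_iff₀ (by linarith)]
              linarith
            linarith
          have h9 : (1 : ℝ) ≤ (n : ℝ) / (2 * E) := by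
            rw [le_div_iff₀ (by linarith)]
            have : (2 * E : ℕ) ≤ n := hn
            have h10 : ((2 * E : ℕ) : ℝ) ≤ n := by exact_mod_cast this
            push_cast at h10
            linarith
          have h11 : (n : ℝ) / (4 * E) + (n : ℝ) / (4 * E) = (n : ℝ) / (2 * E) := by
            field_simp
            ring
          have h12 : (n : ℝ) / E = (n : ℝ) / (2 * E) + (n : ℝ) / (2 * E) := by
            field_simp
            norm_num
          rw [h11]
          linarith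
  rw [Real.rpow_natCast] at h4
  exact_mod_cast h4

end Pool.Agent.H33.SH
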